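import Pool.Agent.H.MP_0427c5_lc.Sums

/-!
# 3SUM-Indexing in the generic group model

Every generic data structure with `S` bits of memory and `T` oracle calls per query satisfies
`γ² |B| ≤ 45 (S+1) (T+1)²`, if it decides membership in `B` with advantage `γ`; for the sums of `n`
integers below `p/2` (with `p` a prime, `p ≥ 2 n³`) this gives `γ² n² ≤ 90 (S+1) (T+1)²`.
-/

namespace Pool.Agent.H.MP_0427c5_lc.OldGenericGroup

open GGM3

theorem result :
    (∀ (K : Type) [Field K] [Fintype K] [DecidableEq K] (B : Finset K),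
      2 * B.card ≤ Fintype.card K →
      ∀ (S T : ℕ) (Ω : Type) [Fintype Ω] (D : DataStructure K S Ω) (γ : ℝ), 0 < γ →
        1 / 2 + γ ≤ success D T B → γ ^ 2 * B.card ≤ 45 * (S + 1) * (T + 1) ^ 2) ∧
    ∀ (n p : ℕ) [Fact p.Prime], 1 ≤ n → 2 * n ^ 3 ≤ p →
      ∃ A : Finset ℕ, A.card = n ∧ (∀ a ∈ A, 2 * a < p) ∧
        ∀ (S T : ℕ) (Ω : Type) [Fintype Ω] (D : DataStructure (ZMod p) S Ω) (γ : ℝ), 0 < γ →
          1 / 2 + γ ≤ success D T (sums p A) → γ ^ 2 * n ^ 2 ≤ 90 * (S + 1) * (T + 1) ^ 2 := by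
  refine ⟨?_, ?_⟩
  · intro K _ _ _ B hB S T Ω _ D γ hγ h
    exact bound B hB D γ hγ h
  · intro n p hp hn hnp
    obtain ⟨A, hA, hlt, hS⟩ := exists_sidon n
    have hlt' : ∀ a ∈ A, 2 * a < p := fun a ha => by
      have := hlt a ha
      omega
    refine ⟨A, hA, hlt', ?_⟩
    intro S T Ω _ D γ hγ h
    have h1 := sums_card_le (p := p) n hA hn hnp
    have h2 := sums_card_ge (p := p) n hA hlt' hS
    have h3 := bound (sums p A) (by rw [ZMod.card]; exact h1) D γ hγ h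
    have h4 : (n : ℝ) ^ 2 ≤ 2 * (sums p A).card := by exact_mod_cast h2
    have h5 : γ ^ 2 * (n : ℝ) ^ 2 ≤ γ ^ 2 * (2 * (sums p A).card) :=
      mul_le_mul_of_nonneg_left h4 (sq_nonneg γ)
    linarith

end Pool.Agent.H.MP_0427c5_lc.OldGenericGroup
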