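import Pool.Agent.H.MP_0427c5_lc.hf.Thm

/-!
# 3SUM-Indexing in the generic group model with hashing

Let `h s`, `s < M`, be functions of the integers modulo `p` to a finite set `W`. There is a set `A` of `n`
integers below `p/2` such that every generic data structure with `S` bits of memory and `T` oracle
calls per query, which moreover sees the value of one of the functions `h s` at the query in clear,
and which decides membership in the set of sums with advantage `γ`, satisfies
`γ³ n⁴ ≤ 20000 Λ² (S + 1) (T + 1)⁴ (n + |W|)²`, `Λ = log₂ (n M (|W| + 1)) + 4`.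
-/

namespace Pool.Agent.H.MP_0427c5_lc.OldHashedGeneric

open GGM3

theorem result (n p M : ℕ) [Fact p.Prime] (hn : 1 ≤ n) (hp : 16 * n ^ 12 ≤ p) (W : Type)
    [Fintype W] [DecidableEq W] (h : Fin M → ZMod p → W) :
    ∃ A : Finset ℕ, A.card = n ∧ (∀ a ∈ A, 2 * a < p) ∧
      ∀ (S T : ℕ) (Ω : Type) [Fintype Ω] [Nonempty Ω] (D : HashStructure (ZMod p) W M S Ω) (γ : ℝ),
        0 < γ → avgErr h D T (sums p A) ≤ 1 / 2 - γ →
        γ ^ 3 * n ^ 4 ≤ 20000 * ((Nat.log 2 (n * M * (Fintype.card W + 1)) + 4 : ℕ) : ℝ) ^ 2 *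
          (S + 1) * (T + 1) ^ 4 * (n + Fintype.card W) ^ 2 :=
  hash_result n p M hn hp W h

end Pool.Agent.H.MP_0427c5_lc.OldHashedGeneric
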